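import Pool.Agent.TH953.RC.Main

set_option autoImplicit false

/-!
# Almost all truncated clique lattices in every dense hereditary class are reconstructible

`T(G)` is the set of nonempty cliques of `G` ordered by inclusion.  For every hereditary class of
graphs with at least `2 ^ (c * n ^ 2)` members on the vertex set `{0, ..., n - 1}` for infinitely
many `n`, all but a proportion `2 ^ (-(c' * n ^ 2))` of the members on `n` vertices are
reconstructible from the deck of maximal filter deleted subsets, and moreover each of them is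
determined by the three cards at `a`, `b`, `c` for all but `η * n ^ 3` of the ordered triples
`(a, b, c)` of vertices.
-/

namespace Pool.Agent.Results.MP_552896_co.DenseClasses

/-- The card of `T(G)` at `v` and the card of `T(H)` at `w` are isomorphic: the nonempty cliques
of `G` avoiding `v` and the nonempty cliques of `H` avoiding `w`, both ordered by inclusion, are
isomorphic ordered sets. -/
def SameCard {V W : Type} (G : SimpleGraph V) (v : V) (H : SimpleGraph W) (w : W) : Prop :=
  Nonempty ({s : Finset V // s.Nonempty ∧ G.IsClique (s : Set V) ∧ v ∉ s} ≃o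
    {t : Finset W // t.Nonempty ∧ H.IsClique (t : Set W) ∧ w ∉ t})

/-- `T(G)` and `T(H)` are isomorphic ordered sets. -/
def SameLattice {V W : Type} (G : SimpleGraph V) (H : SimpleGraph W) : Prop :=
  Nonempty ({s : Finset V // s.Nonempty ∧ G.IsClique (s : Set V)} ≃o
    {t : Finset W // t.Nonempty ∧ H.IsClique (t : Set W)})

/-- `T(G)` is reconstructible from its deck of maximal filter deleted subsets: every truncated
clique lattice `T(H)` of a finite graph `H` with the same deck is isomorphic to `T(G)`. -/
def Reconstructible {V : Type} (G : SimpleGraph V) : Prop :=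
  ∀ (W : Type) [Fintype W] (H : SimpleGraph W),
    (∃ f : V ≃ W, ∀ v : V, SameCard G v H (f v)) → SameLattice G H

/-- The cards at `a`, `b`, `c` determine `T(G)`: the vertices `a`, `b`, `c` are distinct, and
every truncated clique lattice `T(H)` of a finite graph `H` which has, at three distinct vertices,
cards isomorphic to the cards of `T(G)` at `a`, `b`, `c`, is isomorphic to `T(G)`. -/
def DeterminedBy {V : Type} (G : SimpleGraph V) (a b c : V) : Prop :=
  a ≠ b ∧ a ≠ c ∧ b ≠ c ∧
    ∀ (W : Type) [Fintype W] (H : SimpleGraph W) (a' b' c' : W), a' ≠ b' → a' ≠ c' → b' ≠ c' →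
      SameCard G a H a' → SameCard G b H b' → SameCard G c H c' → SameLattice G H

/-- A hereditary class of graphs, given by its members on the vertex sets `Fin n`: it is closed
under isomorphism and under induced subgraphs. -/
def Hereditary (P : (n : ℕ) → Set (SimpleGraph (Fin n))) : Prop :=
  ∀ (m n : ℕ) (f : Fin m ↪ Fin n) (G : SimpleGraph (Fin n)), G ∈ P n → G.comap f ∈ P m

theorem result : ∀ c η : ℝ, 0 < c → 0 < η → ∃ c' : ℝ, 0 < c' ∧
    ∀ P : (n : ℕ) → Set (SimpleGraph (Fin n)), Hereditary P →
      (∀ N : ℕ, ∃ n : ℕ, N ≤ n ∧ (2 : ℝ) ^ (c * (n : ℝ) ^ 2) ≤ ((P n).ncard : ℝ)) →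
      ∃ n₀ : ℕ, ∀ n : ℕ, n₀ ≤ n →
        (({G : SimpleGraph (Fin n) | G ∈ P n ∧ ¬ (Reconstructible G ∧
            (({t : Fin n × Fin n × Fin n | ¬ DeterminedBy G t.1 t.2.1 t.2.2}.ncard : ℕ) : ℝ) ≤
              η * (n : ℝ) ^ 3)}.ncard : ℕ) : ℝ) ≤
          (2 : ℝ) ^ (-(c' * (n : ℝ) ^ 2)) * ((P n).ncard : ℝ) := by
  classical
  intro c η hc hη
  obtain ⟨c', hc', h⟩ := Pool.Agent.TH953.RC.main c η hc hη
  refine ⟨c', hc', fun P hP hbig => ?_⟩
  obtain ⟨n₀, hn₀⟩ := h P hP hbig
  refine ⟨n₀, fun n hn => ?_⟩
  have h1 : ∀ G : SimpleGraph (Fin n),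
      {t : Fin n × Fin n × Fin n | ¬ DeterminedBy G t.1 t.2.1 t.2.2}.ncard =
        (Pool.Agent.TH953.RC.BT G).card := by
    intro G
    rw [← Set.ncard_coe_finset]
    congr 1
    ext t
    simp only [Pool.Agent.TH953.RC.BT, Finset.coe_filter, Finset.mem_univ, true_and]
    exact Iff.rfl
  have h2 := hn₀ n hn
  refine le_trans (le_of_eq ?_) h2
  congr 1
  rw [← Set.ncard_coe_finset]
  congr 1
  ext G
  simp only [Finset.coe_filter, Finset.mem_univ, true_and, Set.mem_ofPred_eq]
  rw [h1 G]
  exact Iff.rfl

end Pool.Agent.Results.MP_552896_co.DenseClasses
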