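import Pool.Agent.TH87.RVD.Fin

set_option autoImplicit false

/-!
# Graphs with an independent set having many distinct neighbourhoods, and their complements

`T(G)` is the set of nonempty cliques of `G` ordered by inclusion.  Let `A` be a set of `a`
vertices of a finite graph `G` such that no two vertices outside `A` are adjacent.  If the vertices
outside `A` have more than `5/2 a log a + 3 a + 3` distinct neighbourhoods, then `T(G)` and `T` of
the complement of `G` are reconstructible from their decks of maximal filter deleted subsets.
-/

namespace Pool.Agent.Results.MP_552896_co.DistinctNeighbourhoods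

/-- The truncated clique lattices of `G` and `H` have the same deck of maximal filter deleted
subsets: some bijection `f` of the vertex sets is such that, for every vertex `v`, the nonempty
cliques of `G` avoiding `v` and the nonempty cliques of `H` avoiding `f v`, both ordered by
inclusion, are isomorphic ordered sets. -/
def SameDeck {V W : Type} (G : SimpleGraph V) (H : SimpleGraph W) : Prop :=
  ∃ f : V ≃ W, ∀ v : V,
    Nonempty ({s : Finset V // s.Nonempty ∧ G.IsClique (s : Set V) ∧ v ∉ s} ≃o
      {t : Finset W // t.Nonempty ∧ H.IsClique (t : Set W) ∧ f v ∉ t})

/-- `T(G)` is reconstructible from its deck: every truncated clique lattice `T(H)` of a finite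
graph `H` with the same deck is isomorphic to `T(G)`. -/
def Reconstructible {V : Type} (G : SimpleGraph V) : Prop :=
  ∀ (W : Type) [Fintype W] (H : SimpleGraph W), SameDeck G H →
    Nonempty ({s : Finset V // s.Nonempty ∧ G.IsClique (s : Set V)} ≃o
      {t : Finset W // t.Nonempty ∧ H.IsClique (t : Set W)})

open Classical in
/-- Let `A` be a set of vertices of `G` such that no two vertices outside `A` are adjacent, and
suppose that the vertices outside `A` have more than `5/2 |A| log |A| + 3 |A| + 3` distinct
neighbourhoods. Then `T(G)` and `T(Gᶜ)` are reconstructible. -/
theorem result {V : Type} [Fintype V] (G : SimpleGraph V) (A : Finset V)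
    (hA : ∀ x y : V, x ∉ A → y ∉ A → ¬ G.Adj x y)
    (hm : 5 / 2 * ((A.card : ℝ) * Real.log A.card) + 3 * (A.card : ℝ) + 3 <
      (((Finset.univ.filter (fun v => v ∉ A)).image
        (fun v => Finset.univ.filter (fun y => G.Adj v y))).card : ℝ)) :
    Reconstructible G ∧ Reconstructible Gᶜ :=
  Pool.Agent.TH87.RVD.main G A hA hm

end Pool.Agent.Results.MP_552896_co.DistinctNeighbourhoods
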