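import Pool.Agent.TH403.FLP.Fin

set_option autoImplicit false

/-!
# Graphs which fall into many components after the deletion of a few vertices and a flip

`T(G)` is the set of nonempty cliques of `G` ordered by inclusion. Let `A` be a set of at most `a`
vertices of `G`, let the vertices of `G` be partitioned into `r` parts, and let `P` be a set of
unordered pairs of parts (a pair may consist of one part twice). The flipped graph is obtained from
`G` by complementing the adjacency of the two vertices of each pair of different vertices which lie
in the two parts of a member of `P`.

The theorem: for all `a` and `r` there is a constant `C` such that `T(G)` and `T` of the complement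
of `G` are reconstructible if one of the following holds.

(1) In the flipped graph without `A` all degrees are at most `k`, and this graph has at least
`C ((k + 1) log (k + 2))^2` connected components (of any sizes).

(2) In the flipped graph without `A` all components have at most `k` vertices, and `G` has at least
`C (k + 1)^3 log (k + 2)^2` vertices.

For fixed `a`, `r`, `k` the second part settles all but finitely many graphs. The case without a
flip is the one of graphs of bounded vertex integrity; the case `k = 1`, `a = 0` is the one of
graphs of bounded neighbourhood diversity. By the structure theorem of Balogh, Bollobás and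
Weinreich every hereditary class of graphs whose number of labelled members is smaller than the
Bell number for large `n` is covered by some fixed `a`, `r`, `k`.
-/

namespace Pool.Agent.Results.MP_552896_co.FlipComponents

/-- The truncated clique lattices of `G` and `H` have the same deck of maximal filter deleted
subsets: some bijection `f` of the vertex sets is such that, for every vertex `v`, the nonempty
cliques of `G` avoiding `v` and the nonempty cliques of `H` avoiding `f v`, both ordered by
inclusion, are isomorphic ordered sets. -/
def SameDeck {V W : Type} (G : SimpleGraph V) (H : SimpleGraph W) : Prop :=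
  ∃ f : V ≃ W, ∀ v : V,
    Nonempty ({s : Finset V // s.Nonempty ∧ G.IsClique (s : Set V) ∧ v ∉ s} ≃o
      {t : Finset W // t.Nonempty ∧ H.IsClique (t : Set W) ∧ f v ∉ t})

/-- `T(G)` is reconstructible from its deck: every truncated clique lattice `T(H)` of a finite
graph `H` with the same deck is isomorphic to `T(G)`. -/
def Reconstructible {V : Type} (G : SimpleGraph V) : Prop :=
  ∀ (W : Type) [Fintype W] (H : SimpleGraph W), SameDeck G H →
    Nonempty ({s : Finset V // s.Nonempty ∧ G.IsClique (s : Set V)} ≃o
      {t : Finset W // t.Nonempty ∧ H.IsClique (t : Set W)})

/-- The flipped graph: `f v` is the index of the part which contains the vertex `v`, and the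
adjacency of two different vertices `x`, `y` is complemented if the unordered pair of the indices
of their parts belongs to `P`. -/
def flipped {V : Type} {r : ℕ} (G : SimpleGraph V) (f : V → Fin r) (P : Set (Sym2 (Fin r))) :
    SimpleGraph V where
  Adj x y := x ≠ y ∧ (G.Adj x y ↔ s(f x, f y) ∉ P)
  symm := ⟨fun x y h => ⟨h.1.symm, by rw [G.adj_comm, Sym2.eq_swap]; exact h.2⟩⟩
  loopless := ⟨fun _ h => h.1 rfl⟩

open Classical in
/-- For all `a` and `r` there is a constant `C` with the following properties. Let `A` be a set of
at most `a` vertices of `G`, `f` a partition of the vertices into `r` parts and `P` a set of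
unordered pairs of parts.
(1) If in the flipped graph every vertex outside `A` has at most `k` neighbours outside `A`, and
the flipped graph without `A` has at least `C ((k + 1) log (k + 2))^2` connected components, then
`T(G)` and `T(Gᶜ)` are reconstructible.
(2) The same, if every component of the flipped graph without `A` has at most `k` vertices, and
`C (k + 1)^3 log (k + 2)^2 ≤ |V|`. -/
theorem result (a r : ℕ) : ∃ C : ℝ,
    (∀ (k : ℕ) (V : Type) [Fintype V] (G : SimpleGraph V) (A : Finset V) (f : V → Fin r)
      (P : Set (Sym2 (Fin r))), A.card ≤ a →
      (∀ v : V, v ∉ A →
        (Finset.univ.filter (fun y => y ∉ A ∧ (flipped G f P).Adj v y)).card ≤ k) →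
      C * (((k : ℝ) + 1) * Real.log ((k : ℝ) + 2)) ^ 2 ≤
        (Nat.card ((flipped G f P).induce {v | v ∉ A}).ConnectedComponent : ℝ) →
      Reconstructible G ∧ Reconstructible Gᶜ) ∧
    (∀ (k : ℕ) (V : Type) [Fintype V] (G : SimpleGraph V) (A : Finset V) (f : V → Fin r)
      (P : Set (Sym2 (Fin r))), A.card ≤ a →
      (∀ c : ((flipped G f P).induce {v | v ∉ A}).ConnectedComponent, c.supp.ncard ≤ k) →
      C * (((k : ℝ) + 1) ^ 3 * Real.log ((k : ℝ) + 2) ^ 2) ≤ (Fintype.card V : ℝ) →
      Reconstructible G ∧ Reconstructible Gᶜ) := by
  obtain ⟨C, h1, h2⟩ := Pool.Agent.TH403.FLP.final a r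
  exact ⟨C, fun k V _ G A f P hA hk hm =>
      h1 k V G (flipped G f P) A f P (fun _ _ => Iff.rfl) hA hk hm,
    fun k V _ G A f P hA hk hm =>
      h2 k V G (flipped G f P) A f P (fun _ _ => Iff.rfl) hA hk hm⟩

end Pool.Agent.Results.MP_552896_co.FlipComponents
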