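import Pool.Agent.TH87.RVP.Fin

set_option autoImplicit false

/-!
# Graphs with many components over a small neighbourhood

`T(G)` is the set of nonempty cliques of `G` ordered by inclusion. `T(G)` and `T` of the complement
of `G` are reconstructible in each of the following cases.

(A) *Many components which are attached in the same way; the rest of the graph is arbitrary.* Let
`C` be a set of vertices which induces a connected graph, and let `N(C)` be the set of the vertices
outside `C` with a neighbour in `C`. A set `D` is *parallel* to `C` if some permutation of the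
vertices maps `C` onto `D`, fixes every vertex of `N(C)` and preserves all adjacencies of the
vertices of `C`: then `D` is the vertex set of another component of `G - N(C)`, which is attached to
`N(C)` in the same way as `C`. A set `D` is a *copy* of `C` if an isomorphism of the graph induced
by `C ∪ N(C)` onto the graph induced by `D ∪ N(D)` maps `C` onto `D`. Suppose that the vertices of
`C` have degree at most `δ` in `G` and that `m ≥ 2 δ + 3` sets are parallel to `C`, and that
* for some `j` with `2 δ + 2 ≤ j < m` no copy of `C` has exactly `j` parallel sets, or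
* for some set `S` of degrees, the number of the vertices of `G` with degree in `S` is smaller
  than `k (m - 2 δ - 1) (m + 2 δ + 2) / 2`, where `k` is the number of the vertices of `C` with
  degree in `S`.
For example, the second condition holds if `C` has `c` vertices, `G` has `n` vertices and
`m ≥ 2 δ + 2 + (2 n / c)^(1/2)`.

(B) *Arbitrary components.* No vertex of `G` has degree `e`, `A` is the set of the vertices of
degree larger than `e`, `2 |Aut(G[A])| < (3/2)^t`, and `G - A` has at least `t^2` connected
components.

(C) `A` is a set of `a` vertices such that every vertex outside `A` has at most `k` neighbours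
outside `A`, `2 a! < (3/2)^t`, and `G - A` has at least `t^2 + a (2 a + k)` connected components.

(D) `A` is a set of `a` vertices such that every component of `G - A` has at most `k + 1` vertices,
and `G` has at least `a + (k + 1) ((5/2 a log a + 3)^2 + a (2 a + k))` vertices. So all but finitely
many graphs of bounded vertex integrity are reconstructible.
-/

namespace Pool.Agent.Results.MP_552896_co.ParallelComponents

/-- The truncated clique lattices of `G` and `H` have the same deck of maximal filter deleted
subsets: some bijection `f` of the vertex sets is such that, for every vertex `v`, the nonempty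
cliques of `G` avoiding `v` and the nonempty cliques of `H` avoiding `f v`, both ordered by
inclusion, are isomorphic ordered sets. -/
def SameDeck {V W : Type} (G : SimpleGraph V) (H : SimpleGraph W) : Prop :=
  ∃ f : V ≃ W, ∀ v : V,
    Nonempty ({s : Finset V // s.Nonempty ∧ G.IsClique (s : Set V) ∧ v ∉ s} ≃o
      {t : Finset W // t.Nonempty ∧ H.IsClique (t : Set W) ∧ f v ∉ t})

/-- `T(G)` is reconstructible from its deck: every truncated clique lattice `T(H)` of a finite
graph `H` with the same deck is isomorphic to `T(G)`. -/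
def Reconstructible {V : Type} (G : SimpleGraph V) : Prop :=
  ∀ (W : Type) [Fintype W] (H : SimpleGraph W), SameDeck G H →
    Nonempty ({s : Finset V // s.Nonempty ∧ G.IsClique (s : Set V)} ≃o
      {t : Finset W // t.Nonempty ∧ H.IsClique (t : Set W)})

open Classical in
/-- The degree of the vertex `v`. -/
noncomputable def deg {V : Type} [Fintype V] (G : SimpleGraph V) (v : V) : ℕ :=
  (Finset.univ.filter (fun y => G.Adj v y)).card

/-- The vertex `a` is outside `C` and has a neighbour in `C`. -/
def Near {V : Type} (G : SimpleGraph V) (C : Finset V) (a : V) : Prop :=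
  a ∉ C ∧ ∃ x ∈ C, G.Adj x a

/-- `D` is a copy of `C` in `G`: some permutation of the vertices maps `C` onto `D` and preserves
the adjacency of all pairs of vertices with a member in `C` and of all pairs of neighbours of
`C`. -/
def Copy {V : Type} (G : SimpleGraph V) (C D : Finset V) : Prop :=
  ∃ σ : Equiv.Perm V, (∀ x, σ x ∈ D ↔ x ∈ C) ∧
    (∀ x ∈ C, ∀ z, (G.Adj (σ x) (σ z) ↔ G.Adj x z)) ∧
    ∀ a b, Near G C a → Near G C b → (G.Adj (σ a) (σ b) ↔ G.Adj a b)

/-- `D` is parallel to `C` in `G`: some permutation of the vertices maps `C` onto `D`, preserves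
the adjacency of all pairs of vertices with a member in `C` and fixes every vertex outside `C` with
a neighbour in `C`. -/
def Parallel {V : Type} (G : SimpleGraph V) (C D : Finset V) : Prop :=
  ∃ σ : Equiv.Perm V, (∀ x, σ x ∈ D ↔ x ∈ C) ∧
    (∀ x ∈ C, ∀ z, (G.Adj (σ x) (σ z) ↔ G.Adj x z)) ∧
    ∀ a, Near G C a → σ a = a

/-- The number of the sets parallel to `C`. -/
noncomputable def par {V : Type} (G : SimpleGraph V) (C : Finset V) : ℕ :=
  {D : Finset V | Parallel G C D}.ncard

open Classical in
/-- (A) If `C` induces a connected graph, the vertices of `C` have degree at most `δ`,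
`m = par G C` is at least `2 δ + 3`, and for some `j` with `2 δ + 2 ≤ j < m` no copy of `C` has
exactly `j` parallel sets, or for some set `S` of degrees twice the number of the vertices of `G`
with degree in `S` is smaller than `k (m - 2 δ - 1) (m + 2 δ + 2)`, `k` the number of the vertices
of `C` with degree in `S`, then `T(G)` and `T(Gᶜ)` are reconstructible.
(B) The same, if no vertex has degree `e`, the graph induced by the vertices of degree larger than
`e` has fewer than `(3/2)^t / 2` automorphisms, and the graph induced by the vertices of degree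
smaller than `e` has at least `t^2` components.
(C) The same, if every vertex outside `A` has at most `k` neighbours outside `A`,
`2 |A|! < (3/2)^t`, and `G - A` has at least `t^2 + |A| (2 |A| + k)` components.
(D) The same, if every component of `G - A` has at most `k + 1` vertices and
`|A| + (k + 1) ((5/2 |A| log |A| + 3)^2 + |A| (2 |A| + k)) ≤ |V|`. -/
theorem result {V : Type} [Fintype V] (G : SimpleGraph V) :
    (∀ (C : Finset V) (δ : ℕ), (G.induce (C : Set V)).Connected → (∀ x ∈ C, deg G x ≤ δ) →
      2 * δ + 3 ≤ par G C →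
      (∃ j, 2 * δ + 2 ≤ j ∧ j < par G C ∧ ∀ D, Copy G C D → par G D ≠ j) ∨
        (∃ S : Set ℕ, 2 * {x | deg G x ∈ S}.ncard <
          {x | x ∈ C ∧ deg G x ∈ S}.ncard *
            ((par G C - (2 * δ + 1)) * (par G C + 2 * δ + 2))) →
      Reconstructible G ∧ Reconstructible Gᶜ) ∧
    (∀ e t : ℕ, (∀ v : V, deg G v ≠ e) →
      2 * (Nat.card (G.induce {v | e < deg G v} ≃g G.induce {v | e < deg G v}) : ℝ) <
        (3 / 2 : ℝ) ^ t →
      t ^ 2 ≤ Nat.card (G.induce {v | deg G v < e}).ConnectedComponent →
      Reconstructible G ∧ Reconstructible Gᶜ) ∧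
    (∀ (A : Finset V) (k t : ℕ),
      (∀ v : V, v ∉ A → (Finset.univ.filter (fun y => y ∉ A ∧ G.Adj v y)).card ≤ k) →
      2 * (A.card.factorial : ℝ) < (3 / 2 : ℝ) ^ t →
      t ^ 2 + A.card * (2 * A.card + k) ≤
        Nat.card (G.induce {v | v ∉ A}).ConnectedComponent →
      Reconstructible G ∧ Reconstructible Gᶜ) ∧
    (∀ (A : Finset V) (k : ℕ),
      (∀ c : (G.induce {v | v ∉ A}).ConnectedComponent, c.supp.ncard ≤ k + 1) →
      (A.card : ℝ) + ((k : ℝ) + 1) * ((5 / 2 * ((A.card : ℝ) * Real.log A.card) + 3) ^ 2 +
        (A.card : ℝ) * (2 * (A.card : ℝ) + (k : ℝ))) ≤ (Fintype.card V : ℝ) →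
      Reconstructible G ∧ Reconstructible Gᶜ) := by
  refine ⟨fun C δ hC hδ hm h => ?_,
    fun e t he ht hm => Pool.Agent.TH87.RVE.gap_form G e t he ht hm,
    fun A k t hk ht hm => Pool.Agent.TH87.RVE.comp_form G A k t hk ht hm,
    fun A k hk hm => Pool.Agent.TH87.RVE.order_form G A k hk hm⟩
  classical
  have e1 : ∀ C D : Finset V, Parallel G C D ↔ Pool.Agent.TH87.RVP.Par G C D := by
    intro C D
    constructor
    · rintro ⟨σ, h1, h2, h3⟩
      exact ⟨σ, ⟨h1, h2⟩, fun a ha => h3 a ((Pool.Agent.TH87.RVP.mem_nb _ _ _).mp ha)⟩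
    · rintro ⟨σ, ⟨h1, h2⟩, h3⟩
      exact ⟨σ, h1, h2, fun a ha => h3 a ((Pool.Agent.TH87.RVP.mem_nb _ _ _).mpr ha)⟩
  have e2 : ∀ D : Finset V, par G D = (Pool.Agent.TH87.RVP.cl G D).card := by
    intro D
    rw [par, ← Set.ncard_coe_finset]
    congr 1
    ext E
    rw [Finset.mem_coe, Pool.Agent.TH87.RVP.mem_cl, Set.mem_ofPred_eq, e1]
  have e3 : ∀ D : Finset V, Copy G C D ↔ D ∈ Pool.Agent.TH87.RVP.cp G C G := by
    intro D
    rw [Pool.Agent.TH87.RVP.mem_cp]
    constructor
    · rintro ⟨σ, h1, h2, h3⟩
      exact ⟨σ, ⟨h1, h2⟩, fun a ha b hb => h3 a b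
        ((Pool.Agent.TH87.RVP.mem_nb _ _ _).mp ha) ((Pool.Agent.TH87.RVP.mem_nb _ _ _).mp hb)⟩
    · rintro ⟨σ, ⟨h1, h2⟩, h3⟩
      exact ⟨σ, h1, h2, fun a b ha hb => h3 a ((Pool.Agent.TH87.RVP.mem_nb _ _ _).mpr ha) b
        ((Pool.Agent.TH87.RVP.mem_nb _ _ _).mpr hb)⟩
  refine Pool.Agent.TH87.RVP.parallel_form G C δ hC hδ (by rw [← e2]; exact hm) ?_
  rcases h with ⟨j, h1, h2, h⟩ | ⟨S, h⟩
  · left
    refine ⟨j, h1, by rw [← e2]; exact h2.le, fun D hD => ?_⟩
    rw [← e2]
    exact h D ((e3 D).mpr hD)
  · right
    refine ⟨fun d => d ∈ S, ?_⟩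
    have h1 : {x | deg G x ∈ S}.ncard =
        (Finset.univ.filter (fun x => Pool.Agent.TH87.RVP.dg G x ∈ S)).card := by
      rw [← Set.ncard_coe_finset]
      congr 1
      ext x
      simp [deg, Pool.Agent.TH87.RVP.dg]
    have h2 : {x | x ∈ C ∧ deg G x ∈ S}.ncard =
        (C.filter (fun x => Pool.Agent.TH87.RVP.dg G x ∈ S)).card := by
      rw [← Set.ncard_coe_finset]
      congr 1
      ext x
      simp [deg, Pool.Agent.TH87.RVP.dg]
    rw [h1, h2, e2] at h
    exact h

end Pool.Agent.Results.MP_552896_co.ParallelComponents
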